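import Mathlib
import Pool.Prelude.Def_F_c1751164
import Pool.Agent.Run7.h770.Final

/-!
# Almost all windows between consecutive squares are good

For `1 ≤ Y ≤ x` and `0 < η ≤ 1`, all but at most `C η^(-14) Y^(99/100)` of the `Y` windows
`[m², (m+1)²]`, `x ≤ m < x + Y`, have the property that **every** real `X` in the window has a sum
of two squares in `[X - η X^(1/4), X]`.
-/

set_option autoImplicit false

open N73befb9b

namespace Pool.Agent.Results.MP_5f3550_nt.AlmostAllWindows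

theorem result : ∃ C : ℝ, ∀ (x Y : ℕ) (η : ℝ), 1 ≤ Y → Y ≤ x → 0 < η → η ≤ 1 →
    ({m : ℕ | x ≤ m ∧ m < x + Y ∧ ∃ X : ℝ, (m : ℝ) ^ 2 ≤ X ∧ X ≤ ((m : ℝ) + 1) ^ 2 ∧
      ¬ ∃ n : ℕ, IsSumOfTwoSquares n ∧
        (n : ℝ) ∈ Set.Icc (X - η * X ^ (1 / 4 : ℝ)) X}.ncard : ℝ) ≤
      C * (1 / η) ^ 14 * (Y : ℝ) ^ (99 / 100 : ℝ) := by
  classical
  obtain ⟨K, hK, h⟩ := Run7.h770.final_nat
  refine ⟨K * 2 ^ 14, fun x Y η hY hYx hη hη1 => ?_⟩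
  set S : ℕ := ⌈1 / η⌉₊ with hS
  have h1η : 1 ≤ 1 / η := by rw [le_div_iff₀ hη]; linarith
  have hS1 : (1 / η : ℝ) ≤ S := Nat.le_ceil _
  have hS2 : (S : ℝ) ≤ 2 * (1 / η) := by
    have := Nat.ceil_lt_add_one (show 0 ≤ 1 / η by positivity)
    rw [← hS] at this
    linarith
  have hSr : (1 : ℝ) ≤ S := le_trans h1η hS1
  have hSn : 1 ≤ S := by exact_mod_cast hSr
  have hSη : 1 / (S : ℝ) ≤ η := by
    rw [div_le_iff₀ (by linarith)]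
    rw [div_le_iff₀ hη] at hS1
    linarith
  set A : Set ℕ := {m : ℕ | x ≤ m ∧ m < x + Y ∧ ∃ X : ℝ, (m : ℝ) ^ 2 ≤ X ∧
      X ≤ ((m : ℝ) + 1) ^ 2 ∧ ¬ ∃ n : ℕ, IsSumOfTwoSquares n ∧
        (n : ℝ) ∈ Set.Icc (X - η * X ^ (1 / 4 : ℝ)) X} with hA
  have hfin : A.Finite := (Set.finite_Ico x (x + Y)).subset fun m hm => ⟨hm.1, hm.2.1⟩
  have hbad : ∀ m ∈ hfin.toFinset, x ≤ m ∧ m < x + Y ∧ Run7.h770.BadW (1 / S) m := by
    intro m hm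
    rw [Set.Finite.mem_toFinset] at hm
    obtain ⟨h1, h2, X, h3, h4, h5⟩ := hm
    refine ⟨h1, h2, Run7.h770.BadW.anti hSη ⟨X, h3, h4, ?_⟩⟩
    rintro ⟨a, b, h6, h7⟩
    exact h5 ⟨a ^ 2 + b ^ 2, ⟨a, b, rfl⟩, h6, h7⟩
  have hmain := h x Y S hY hYx hSn hfin.toFinset hbad
  rw [Set.ncard_eq_toFinset_card A hfin]
  refine le_trans hmain ?_
  apply mul_le_mul_of_nonneg_right _ (Real.rpow_nonneg (Nat.cast_nonneg _) _)
  calc K * (S : ℝ) ^ 14 ≤ K * (2 * (1 / η)) ^ 14 :=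
        mul_le_mul_of_nonneg_left (pow_le_pow_left₀ (by linarith) hS2 14) hK.le
    _ = K * 2 ^ 14 * (1 / η) ^ 14 := by rw [mul_pow]; ring

end Pool.Agent.Results.MP_5f3550_nt.AlmostAllWindows
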