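import Mathlib
import Pool.Prelude.Def_F_c1751164
import Pool.Agent.Run7.h770.Greedy2
import Pool.Agent.Run7.h770.Metric

/-!
# Almost every residue of `√X` modulo one

For almost every real `θ` and every `η > 0` there are `δ > 0` and `X₀` such that **every** real
`X ≥ X₀` whose square root is within `δ` of `θ` modulo one has a sum of two squares in
`[X - η X^(1/4), X]`.
-/

set_option autoImplicit false

open N73befb9b MeasureTheory

namespace Pool.Agent.Results.MP_5f3550_nt.AlmostEveryResidue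

open Run7.h770 in
/-- The deterministic step at one prime `p ≡ 1 mod 4`. -/
lemma local_step {η κ : ℝ} (hη : 0 < η) (hκ0 : 0 < κ) (hκ : 8 * κ ≤ η ^ 2) {p : ℕ} (hp : p.Prime)
    (h1 : (p : ZMod 4) = 1) {θ : ℝ} (hθ : θ ∈ EE κ p) :
    ∃ δ : ℝ, 0 < δ ∧ ∃ X₀ : ℝ, ∀ X : ℝ, X₀ ≤ X → (∃ m : ℤ, |√X - m - θ| < δ) →
      ∃ n : ℕ, IsSumOfTwoSquares n ∧ (n : ℝ) ∈ Set.Icc (X - η * X ^ (1 / 4 : ℝ)) X := by
  obtain ⟨u, v, hcop, huv⟩ := prime_sq_rep hp h1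
  obtain ⟨ht0, ht1⟩ := hθ
  set t := Int.fract ((p : ℝ) * θ) with ht
  have hp2 : (2 : ℝ) ≤ p := by exact_mod_cast hp.two_le
  have hp0 : (0 : ℝ) < p := by linarith
  have htlt : t < 1 := Int.fract_lt_one _
  -- the radius
  set r : ℝ := min (t / 2) (min (κ / p - t) (1 - t)) with hr
  have hr0 : 0 < r := lt_min (by linarith) (lt_min (by linarith) (by linarith))
  have hr1 : r ≤ t / 2 := min_le_left _ _
  have hr2 : r ≤ κ / p - t := le_trans (min_le_right _ _) (min_le_left _ _)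
  have hr3 : r ≤ 1 - t := le_trans (min_le_right _ _) (min_le_right _ _)
  refine ⟨r / p, by positivity, (max 1 ((p : ℝ) ^ 3 / (2 * t))) ^ 2, fun X hX hm => ?_⟩
  obtain ⟨m, hm⟩ := hm
  have hmax : (1 : ℝ) ≤ max 1 ((p : ℝ) ^ 3 / (2 * t)) := le_max_left _ _
  have hX0 : 0 ≤ X := le_trans (by positivity) hX
  have hR : max 1 ((p : ℝ) ^ 3 / (2 * t)) ≤ √X := Real.le_sqrt_of_sq_le hX
  have hR1 : 1 ≤ √X := le_trans hmax hR
  have hR2 : (p : ℝ) ^ 3 / (2 * t) ≤ √X := le_trans (le_max_right _ _) hR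
  -- fractional part of `p √X`
  have hfr : t / 2 ≤ Int.fract ((p : ℝ) * √X) ∧ Int.fract ((p : ℝ) * √X) ≤ κ / p := by
    set s : ℝ := (p : ℝ) * (√X - m - θ) with hs
    have hs1 : |s| < r := by
      rw [hs, abs_mul, abs_of_pos hp0]
      have := mul_lt_mul_of_pos_left hm hp0
      rwa [mul_div_cancel₀ _ hp0.ne'] at this
    rw [abs_lt] at hs1
    have h2 : (p : ℝ) * √X = ((((p : ℤ) * m + ⌊(p : ℝ) * θ⌋ : ℤ)) : ℝ) + (t + s) := by
      have h3 : (p : ℝ) * θ = ⌊(p : ℝ) * θ⌋ + t := by rw [ht]; exact (Int.floor_add_fract _).symm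
      have h4 : (p : ℝ) * √X = p * m + (p : ℝ) * θ + s := by rw [hs]; ring
      rw [h4, h3]
      push_cast
      rw [show (⌊((⌊(p : ℝ) * θ⌋ : ℤ) : ℝ) + t⌋ : ℤ) = ⌊(p : ℝ) * θ⌋ by rw [← h3]]
      ring
    have h5 : Int.fract ((p : ℝ) * √X) = t + s := by
      rw [h2, Int.fract_intCast_add, Int.fract_eq_self]
      constructor <;> linarith
    rw [h5]
    constructor <;> linarith
  -- apply the window lemma
  have hρ : (p : ℝ) ^ 2 = (u : ℝ) ^ 2 + (v : ℝ) ^ 2 := by exact_mod_cast huv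
  obtain ⟨a, b, hab1, hab2⟩ := window_gen u v hcop (ρ := (p : ℝ)) (by linarith) hρ hR1 hη.le
    (by
      have h6 : (p : ℝ) ^ 3 ≤ √X * (2 * t) := by rwa [div_le_iff₀ (by linarith)] at hR2
      calc (p : ℝ) ^ 4 / 4 = (p : ℝ) * (p : ℝ) ^ 3 / 4 := by ring
        _ ≤ (p : ℝ) * (√X * (2 * t)) / 4 := by
            apply div_le_div_of_nonneg_right _ (by norm_num)
            exact mul_le_mul_of_nonneg_left h6 hp0.le
        _ = t / 2 * (p * √X) := by ring)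
    (by
      have h7 : κ / p * p = κ := div_mul_cancel₀ _ hp0.ne'
      rw [h7]; exact hκ) hfr.1 hfr.2
  have h8 : √X ^ 2 = X := Real.sq_sqrt hX0
  have h9 : √(√X) = X ^ (1 / 4 : ℝ) := by
    rw [Real.sqrt_eq_rpow, Real.sqrt_eq_rpow, ← Real.rpow_mul hX0]
    norm_num
  rw [h8, h9] at hab1
  rw [h8] at hab2
  exact ⟨a ^ 2 + b ^ 2, ⟨a, b, rfl⟩, hab1, hab2⟩

theorem result : ∀ᵐ θ : ℝ ∂volume, ∀ η : ℝ, 0 < η →
    ∃ δ : ℝ, 0 < δ ∧ ∃ X₀ : ℝ, ∀ X : ℝ, X₀ ≤ X → (∃ m : ℤ, |√X - m - θ| < δ) →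
      ∃ n : ℕ, IsSumOfTwoSquares n ∧ (n : ℝ) ∈ Set.Icc (X - η * X ^ (1 / 4 : ℝ)) X := by
  have h : ∀ᵐ θ : ℝ ∂volume, ∀ k : ℕ, ∃ p : ℕ, p.Prime ∧ (p : ZMod 4) = 1 ∧
      θ ∈ Run7.h770.EE (1 / (8 * ((k : ℝ) + 1) ^ 2)) p := by
    rw [ae_all_iff]
    intro k
    apply Run7.h770.ae_exists
    · positivity
    · rw [div_le_one (by positivity)]
      have : (0 : ℝ) ≤ k := Nat.cast_nonneg k
      nlinarith
  filter_upwards [h] with θ hθ η hη
  obtain ⟨k, hk⟩ := exists_nat_gt (1 / η)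
  obtain ⟨p, hp, h1, hE⟩ := hθ k
  refine local_step hη (by positivity) ?_ hp h1 hE
  have hk1 : 1 / η < (k : ℝ) + 1 := by linarith
  have hkp : (0 : ℝ) < (k : ℝ) + 1 := by positivity
  have h2 : 1 < ((k : ℝ) + 1) * η := by rwa [div_lt_iff₀ hη] at hk1
  have h3 : 8 * (1 / (8 * ((k : ℝ) + 1) ^ 2)) = 1 / ((k : ℝ) + 1) ^ 2 := by field_simp
  rw [h3, div_le_iff₀ (by positivity)]
  have h4 : η ^ 2 * ((k : ℝ) + 1) ^ 2 = (((k : ℝ) + 1) * η) ^ 2 := by ring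
  rw [h4]
  exact (one_le_pow₀ h2.le)

end Pool.Agent.Results.MP_5f3550_nt.AlmostEveryResidue
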