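import Mathlib
import Pool.Prelude.Def_F_c1751164
import Pool.Agent.Run7.h770.Short3

/-!
# Every short interval `[Y, Y + H]`, `Y^(1/4) ≤ H ≤ Y`

In **every** interval `[Y, Y + H]` with `Y^(1/4) ≤ H ≤ Y` the reals `X` for which
`[X - η X^(1/4), X]` contains no sum of two squares form a set of measure at most
`C η^(-10) (Y^(1/4) / H)^(1/100) H`.
-/

set_option autoImplicit false

open N73befb9b MeasureTheory

namespace Pool.Agent.Results.MP_5f3550_nt.EveryShortInterval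

open Run7.h770

/-- Cutting `[Y, Y + n L]` into `n` pieces. -/
lemma cover {Y L : ℝ} (n : ℕ) (hn : 1 ≤ n) {X : ℝ} (hX : X ∈ Set.Icc Y (Y + n * L)) :
    ∃ i < n, X ∈ Set.Icc (Y + i * L) (Y + i * L + L) := by
  induction n, hn using Nat.le_induction with
  | base =>
    refine ⟨0, by norm_num, ?_⟩
    simpa using hX
  | succ n hn ih =>
    by_cases h : X ≤ Y + n * L
    · obtain ⟨i, hi, h2⟩ := ih ⟨hX.1, h⟩
      exact ⟨i, by omega, h2⟩
    · push Not at h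
      refine ⟨n, by omega, h.le, ?_⟩
      have := hX.2
      push_cast at this
      linarith

lemma piece_final {u κ v η H L Y₁ : ℝ} {q : ℕ} (hq : 0 < q) (hη0 : 0 < η) (hη1 : η ≤ 1)
    (hηv : η * v = 1) (hu : 10 ≤ u) (hκ2 : 2 ≤ κ) (hqκ : (q : ℝ) ≤ κ)
    (hκu : κ ^ 2 ≤ u ^ 3) (hbig : 48000 * v ^ 4 ≤ u ^ 3) (hHκ : H = κ ^ 200 * u ^ 100)
    (hL0 : 0 < L) (hL1 : L ≤ u ^ 150) (hL2 : H ≤ L ∨ u ^ 150 / 2 ≤ L)
    (hY1 : u ^ 400 ≤ Y₁) (hY2 : Y₁ ≤ 2 * u ^ 400) :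
    volume (BadX η Y₁ L) ≤ ENNReal.ofReal (2 * 10 ^ 17 * (1 / η) ^ 10 * L / (q : ℝ) ^ 2) := by
  have hu0 : 0 < u := by linarith
  have hu1 : 1 ≤ u := by linarith
  have hκ0 : 0 < κ := by linarith
  have hκ1 : 1 ≤ κ := by linarith
  have hqr : (0 : ℝ) < q := by exact_mod_cast hq
  have hY0 : 0 < Y₁ := lt_of_lt_of_le (by positivity) hY1
  set m : ℕ := ⌊√Y₁⌋₊ with hm
  have hs1 : u ^ 200 ≤ √Y₁ := by
    apply Real.le_sqrt_of_sq_le
    calc (u ^ 200) ^ 2 = u ^ 400 := by ring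
      _ ≤ Y₁ := hY1
  have hs2 : √Y₁ ≤ 2 * u ^ 200 := by
    rw [Real.sqrt_le_iff]
    refine ⟨by positivity, le_trans hY2 ?_⟩
    have : 0 < u ^ 400 := by positivity
    calc 2 * u ^ 400 ≤ 4 * u ^ 400 := by linarith
      _ = (2 * u ^ 200) ^ 2 := by ring
  have hsq : √Y₁ ^ 2 = Y₁ := Real.sq_sqrt hY0.le
  have hm1 : (m : ℝ) ≤ √Y₁ := Nat.floor_le (Real.sqrt_nonneg _)
  have hm2 : √Y₁ < m + 1 := Nat.lt_floor_add_one _
  have hu200 : (2 : ℝ) ≤ u ^ 200 := by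
    calc (2 : ℝ) ≤ u := by linarith
      _ = u ^ 1 := (pow_one u).symm
      _ ≤ u ^ 200 := pow_le_pow_right₀ hu1 (by norm_num)
  have hm3 : u ^ 200 / 2 ≤ m := by linarith
  have hm4 : (m : ℝ) ≤ 4 * u ^ 200 := by
    have : 0 < u ^ 200 := by positivity
    linarith
  have hm0 : 0 < m := by
    have : (0 : ℝ) < m := lt_of_lt_of_le (by positivity) hm3
    exact_mod_cast this
  have hsm1 : √(m : ℝ) ≤ 2 * u ^ 100 := by
    rw [Real.sqrt_le_iff]
    refine ⟨by positivity, le_trans hm4 (le_of_eq (by ring))⟩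
  have hsm2 : u ^ 100 / 2 ≤ √(m : ℝ) := by
    apply Real.le_sqrt_of_sq_le
    have : 0 < u ^ 200 := by positivity
    calc (u ^ 100 / 2) ^ 2 = u ^ 200 / 4 := by ring
      _ ≤ u ^ 200 / 2 := by linarith
      _ ≤ m := hm3
  have hκpow : ∀ k : ℕ, κ ^ (2 * k) ≤ u ^ (3 * k) := by
    intro k
    rw [pow_mul, pow_mul]
    exact pow_le_pow_left₀ (by positivity) hκu k
  have hqpow : ∀ k : ℕ, (q : ℝ) ^ k ≤ κ ^ k := fun k => pow_le_pow_left₀ hqr.le hqκ k
  -- `m ≥ 24000 v^4 u^197`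
  have hmv : 24000 * v ^ 4 * u ^ 197 ≤ m := by
    have h1 : 48000 * v ^ 4 * u ^ 197 ≤ u ^ 3 * u ^ 197 :=
      mul_le_mul_of_nonneg_right hbig (by positivity)
    have h2 : u ^ 3 * u ^ 197 = u ^ 200 := by ring
    linarith
  have hη4 : η ^ 4 * v ^ 4 = 1 := by rw [← mul_pow, hηv, one_pow]
  have hηm : 24000 * u ^ 197 ≤ η ^ 4 * m := by
    have h1 := mul_le_mul_of_nonneg_left hmv (by positivity : 0 ≤ η ^ 4)
    have h2 : η ^ 4 * (24000 * v ^ 4 * u ^ 197) = 24000 * u ^ 197 := by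
      have : η ^ 4 * (24000 * v ^ 4 * u ^ 197) = (η ^ 4 * v ^ 4) * (24000 * u ^ 197) := by ring
      rw [this, hη4, one_mul]
    linarith
  apply piece_special hm0 hq hL0 hη0 hη1
  · calc (m : ℝ) ^ 2 ≤ √Y₁ ^ 2 := pow_le_pow_left₀ (Nat.cast_nonneg _) hm1 2
      _ = Y₁ := hsq
  · calc Y₁ = √Y₁ ^ 2 := hsq.symm
      _ ≤ ((m : ℝ) + 1) ^ 2 := pow_le_pow_left₀ (Real.sqrt_nonneg _) hm2.le 2
  · -- c1
    have h1 : (q : ℝ) ^ 23 * √(m : ℝ) ≤ κ ^ 23 * (2 * u ^ 100) :=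
      mul_le_mul (hqpow 23) hsm1 (Real.sqrt_nonneg _) (by positivity)
    refine le_trans h1 ?_
    rcases hL2 with h | h
    · refine le_trans ?_ h
      rw [hHκ]
      have h2 : κ ^ 23 * 2 ≤ κ ^ 200 := by
        calc κ ^ 23 * 2 ≤ κ ^ 23 * κ := mul_le_mul_of_nonneg_left hκ2 (by positivity)
          _ = κ ^ 24 := by ring
          _ ≤ κ ^ 200 := pow_le_pow_right₀ hκ1 (by norm_num)
      calc κ ^ 23 * (2 * u ^ 100) = (κ ^ 23 * 2) * u ^ 100 := by ring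
        _ ≤ κ ^ 200 * u ^ 100 := mul_le_mul_of_nonneg_right h2 (by positivity)
    · refine le_trans ?_ h
      have h2 : κ ^ 23 ≤ u ^ 36 := by
        calc κ ^ 23 ≤ κ ^ (2 * 12) := pow_le_pow_right₀ hκ1 (by norm_num)
          _ ≤ u ^ (3 * 12) := hκpow 12
          _ = u ^ 36 := by norm_num
      calc κ ^ 23 * (2 * u ^ 100) ≤ u ^ 36 * (2 * u ^ 100) :=
            mul_le_mul_of_nonneg_right h2 (by positivity)
        _ = (4 * u ^ 136) / 2 := by ring
        _ ≤ (u ^ 14 * u ^ 136) / 2 := by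
            apply div_le_div_of_nonneg_right _ (by norm_num)
            apply mul_le_mul_of_nonneg_right _ (by positivity)
            calc (4 : ℝ) ≤ u := by linarith
              _ = u ^ 1 := (pow_one u).symm
              _ ≤ u ^ 14 := pow_le_pow_right₀ hu1 (by norm_num)
        _ = u ^ 150 / 2 := by ring
  · -- c2
    have h2 : (q : ℝ) ^ 8 ≤ u ^ 12 := by
      calc (q : ℝ) ^ 8 ≤ κ ^ 8 := hqpow 8
        _ = κ ^ (2 * 4) := by norm_num
        _ ≤ u ^ (3 * 4) := hκpow 4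
        _ = u ^ 12 := by norm_num
    calc 24000 * (q : ℝ) ^ 8 * L ≤ 24000 * u ^ 12 * u ^ 150 :=
          mul_le_mul (mul_le_mul_of_nonneg_left h2 (by norm_num)) hL1 hL0.le (by positivity)
      _ = 24000 * u ^ 162 := by ring
      _ ≤ 24000 * u ^ 197 := mul_le_mul_of_nonneg_left
          (pow_le_pow_right₀ hu1 (by norm_num)) (by norm_num)
      _ ≤ η ^ 4 * m := hηm
  · -- c3
    refine le_trans ?_ hsm2
    calc (q : ℝ) ^ 40 ≤ κ ^ 40 := hqpow 40
      _ = κ ^ (2 * 20) := by norm_num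
      _ ≤ u ^ (3 * 20) := hκpow 20
      _ = (u ^ 60 * 2) / 2 := by ring
      _ ≤ (u ^ 60 * u ^ 40) / 2 := by
          apply div_le_div_of_nonneg_right _ (by norm_num)
          apply mul_le_mul_of_nonneg_left _ (by positivity)
          calc (2 : ℝ) ≤ u := by linarith
            _ = u ^ 1 := (pow_one u).symm
            _ ≤ u ^ 40 := pow_le_pow_right₀ hu1 (by norm_num)
      _ = u ^ 100 / 2 := by ring
  · -- c4
    have h2 : (q : ℝ) ^ 20 ≤ u ^ 30 := by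
      calc (q : ℝ) ^ 20 ≤ κ ^ 20 := hqpow 20
        _ = κ ^ (2 * 10) := by norm_num
        _ ≤ u ^ (3 * 10) := hκpow 10
        _ = u ^ 30 := by norm_num
    calc 12000 * (q : ℝ) ^ 20 ≤ 12000 * u ^ 30 := mul_le_mul_of_nonneg_left h2 (by norm_num)
      _ ≤ 24000 * u ^ 197 := by
          apply mul_le_mul (by norm_num) (pow_le_pow_right₀ hu1 (by norm_num)) (by positivity)
            (by norm_num)
      _ ≤ η ^ 4 * m := hηm

theorem result : ∃ C : ℝ, 0 < C ∧ ∀ Y H η : ℝ, 1 ≤ Y → Y ^ (1 / 4 : ℝ) ≤ H → H ≤ Y →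
    0 < η → η ≤ 1 →
    volume {X : ℝ | X ∈ Set.Icc Y (Y + H) ∧ ¬ ∃ n : ℕ, IsSumOfTwoSquares n ∧
      (n : ℝ) ∈ Set.Icc (X - η * X ^ (1 / 4 : ℝ)) X} ≤
    ENNReal.ofReal (C * (1 / η) ^ 10 * (Y ^ (1 / 4 : ℝ) / H) ^ (1 / 100 : ℝ) * H) := by
  refine ⟨8 * 10 ^ 17, by norm_num, ?_⟩
  intro Y H η hY hH1 hH2 hη0 hη1
  have hY0 : 0 < Y := by linarith
  set v : ℝ := 1 / η with hv
  have hv1 : 1 ≤ v := by rw [hv, le_div_iff₀ hη0]; linarith
  have hηv : η * v = 1 := by rw [hv]; field_simp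
  set u : ℝ := Y ^ (1 / 400 : ℝ) with hu
  have hu1 : 1 ≤ u := Real.one_le_rpow hY (by norm_num)
  have hu0 : 0 < u := by linarith
  have hu400 : u ^ 400 = Y := by
    rw [hu, ← Real.rpow_natCast, ← Real.rpow_mul hY0.le]; norm_num
  have hu100 : Y ^ (1 / 4 : ℝ) = u ^ 100 := by
    rw [hu, ← Real.rpow_natCast, ← Real.rpow_mul hY0.le]; norm_num
  rw [hu100] at hH1 ⊢
  have hu100' : 0 < u ^ 100 := by positivity
  have hH0 : 0 < H := by linarith
  have hratio : 1 ≤ H / u ^ 100 := by rw [le_div_iff₀ hu100']; linarith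
  set κ : ℝ := (H / u ^ 100) ^ (1 / 200 : ℝ) with hκ
  have hκ1 : 1 ≤ κ := Real.one_le_rpow hratio (by norm_num)
  have hκ0 : 0 < κ := by linarith
  have hκ200 : κ ^ 200 = H / u ^ 100 := by
    rw [hκ, ← Real.rpow_natCast, ← Real.rpow_mul (by positivity)]; norm_num
  have hHκ : H = κ ^ 200 * u ^ 100 := by rw [hκ200]; field_simp
  have hexp : (u ^ 100 / H) ^ (1 / 100 : ℝ) = 1 / κ ^ 2 := by
    have h1 : u ^ 100 / H = (H / u ^ 100)⁻¹ := by rw [inv_div]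
    have h2 : κ ^ 2 = (H / u ^ 100) ^ (1 / 100 : ℝ) := by
      rw [hκ, ← Real.rpow_natCast ((H / u ^ 100) ^ (1 / 200 : ℝ)) 2,
        ← Real.rpow_mul (by positivity)]
      norm_num
    rw [h1, Real.inv_rpow (by positivity), h2, one_div ((H / u ^ 100) ^ (1 / 100 : ℝ))]
  rw [hexp]
  by_cases hbig : 8 * 10 ^ 17 * v ^ 10 ≤ κ ^ 2
  · -- the main case
    have hκu : κ ^ 2 ≤ u ^ 3 := by
      have h1 : (κ ^ 2) ^ 100 ≤ (u ^ 3) ^ 100 := by
        have h2 : κ ^ 200 * u ^ 100 ≤ u ^ 300 * u ^ 100 := by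
          rw [← hHκ]
          calc H ≤ Y := hH2
            _ = u ^ 300 * u ^ 100 := by rw [← hu400]; ring
        have h3 := le_of_mul_le_mul_right h2 hu100'
        calc (κ ^ 2) ^ 100 = κ ^ 200 := by ring
          _ ≤ u ^ 300 := h3
          _ = (u ^ 3) ^ 100 := by ring
      exact (pow_le_pow_iff_left₀ (by positivity) (by positivity) (by norm_num)).mp h1
    have hv10 : 1 ≤ v ^ 10 := one_le_pow₀ hv1
    have hv4 : v ^ 4 ≤ v ^ 10 := pow_le_pow_right₀ hv1 (by norm_num)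
    have hκbig : (4 : ℝ) ≤ κ ^ 2 := by
      refine le_trans ?_ hbig
      nlinarith
    have hκ2 : 2 ≤ κ := by nlinarith
    have hu3 : (1000 : ℝ) ≤ u ^ 3 := by
      refine le_trans ?_ (hbig.trans hκu)
      nlinarith
    have hu10 : 10 ≤ u := by
      by_contra h
      push Not at h
      have : u ^ 3 < 10 ^ 3 := pow_lt_pow_left₀ h hu0.le (by norm_num)
      linarith
    have hbig' : 48000 * v ^ 4 ≤ u ^ 3 := by
      refine le_trans ?_ (hbig.trans hκu)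
      nlinarith
    set q : ℕ := ⌊κ⌋₊ with hq
    have hqκ : (q : ℝ) ≤ κ := Nat.floor_le hκ0.le
    have hqκ2 : κ < q + 1 := Nat.lt_floor_add_one _
    have hq0 : 0 < q := Nat.floor_pos.mpr hκ1
    have hqr : (1 : ℝ) ≤ q := by exact_mod_cast hq0
    set n : ℕ := ⌈H / u ^ 150⌉₊ with hn
    have hn0 : 0 < n := Nat.ceil_pos.mpr (by positivity)
    have hnr : (0 : ℝ) < n := by exact_mod_cast hn0
    have hn1 : H / u ^ 150 ≤ n := Nat.le_ceil _
    have hn2 : (n : ℝ) < H / u ^ 150 + 1 := Nat.ceil_lt_add_one (by positivity)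
    set L : ℝ := H / n with hL
    have hL0 : 0 < L := by positivity
    have hLn : n * L = H := by rw [hL]; field_simp
    have hL1 : L ≤ u ^ 150 := by
      rw [hL, div_le_iff₀ hnr]
      rwa [div_le_iff₀ (by positivity), mul_comm] at hn1
    have hL2 : H ≤ L ∨ u ^ 150 / 2 ≤ L := by
      by_cases h : H ≤ u ^ 150
      · left
        have h1 : H / u ^ 150 ≤ 1 := by rw [div_le_one (by positivity)]; exact h
        have h2 : n ≤ 1 := by rw [hn, Nat.ceil_le]; exact_mod_cast h1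
        have h3 : n = 1 := by omega
        rw [hL, h3]; simp
      · right
        push Not at h
        have h1 : 1 < H / u ^ 150 := by rw [one_lt_div (by positivity)]; exact h
        have h2 : (n : ℝ) ≤ 2 * (H / u ^ 150) := by linarith
        rw [hL, le_div_iff₀ hnr]
        calc u ^ 150 / 2 * n ≤ u ^ 150 / 2 * (2 * (H / u ^ 150)) :=
              mul_le_mul_of_nonneg_left h2 (by positivity)
          _ = H := by field_simp
    have hpiece : ∀ i < n, volume (BadX η (Y + i * L) L) ≤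
        ENNReal.ofReal (2 * 10 ^ 17 * v ^ 10 * L / (q : ℝ) ^ 2) := by
      intro i hi
      have hi1 : (i : ℝ) ≤ n := by exact_mod_cast hi.le
      have hi0 : (0 : ℝ) ≤ i := Nat.cast_nonneg _
      have h1 : (i : ℝ) * L ≤ H := by
        rw [← hLn]; exact mul_le_mul_of_nonneg_right hi1 hL0.le
      have h2 : 0 ≤ (i : ℝ) * L := by positivity
      exact piece_final hq0 hη0 hη1 hηv hu10 hκ2 hqκ hκu hbig' hHκ hL0 hL1 hL2
        (by rw [hu400]; linarith) (by rw [hu400]; linarith)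
    have hsub : {X : ℝ | X ∈ Set.Icc Y (Y + H) ∧ ¬ ∃ n : ℕ, IsSumOfTwoSquares n ∧
        (n : ℝ) ∈ Set.Icc (X - η * X ^ (1 / 4 : ℝ)) X} ⊆
        ⋃ i ∈ Finset.range n, BadX η (Y + i * L) L := by
      rintro X ⟨hX, hb⟩
      rw [← hLn] at hX
      obtain ⟨i, hi, h1⟩ := cover n hn0 hX
      rw [Set.mem_iUnion₂]
      exact ⟨i, Finset.mem_range.mpr hi, h1, hb⟩
    calc volume {X : ℝ | X ∈ Set.Icc Y (Y + H) ∧ ¬ ∃ n : ℕ, IsSumOfTwoSquares n ∧
        (n : ℝ) ∈ Set.Icc (X - η * X ^ (1 / 4 : ℝ)) X}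
        ≤ volume (⋃ i ∈ Finset.range n, BadX η (Y + i * L) L) := measure_mono hsub
      _ ≤ ∑ i ∈ Finset.range n, volume (BadX η (Y + i * L) L) := measure_biUnion_finset_le _ _
      _ ≤ ∑ i ∈ Finset.range n, ENNReal.ofReal (2 * 10 ^ 17 * v ^ 10 * L / (q : ℝ) ^ 2) :=
          Finset.sum_le_sum fun i hi => hpiece i (Finset.mem_range.mp hi)
      _ = ENNReal.ofReal (n * (2 * 10 ^ 17 * v ^ 10 * L / (q : ℝ) ^ 2)) := by
          rw [Finset.sum_const, Finset.card_range, nsmul_eq_mul,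
            ENNReal.ofReal_mul (Nat.cast_nonneg _), ENNReal.ofReal_natCast]
      _ ≤ ENNReal.ofReal (8 * 10 ^ 17 * v ^ 10 * (1 / κ ^ 2) * H) := by
          apply ENNReal.ofReal_le_ofReal
          have h1 : (n : ℝ) * (2 * 10 ^ 17 * v ^ 10 * L / (q : ℝ) ^ 2) =
              2 * 10 ^ 17 * v ^ 10 * H * (1 / (q : ℝ) ^ 2) := by
            rw [← hLn]; ring
          have h2 : 1 / (q : ℝ) ^ 2 ≤ 4 * (1 / κ ^ 2) := by
            have h3 : κ ^ 2 ≤ (2 * (q : ℝ)) ^ 2 := pow_le_pow_left₀ hκ0.le (by linarith) 2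
            rw [mul_one_div, div_le_div_iff₀ (by positivity) (by positivity)]
            nlinarith
          rw [h1]
          calc 2 * 10 ^ 17 * v ^ 10 * H * (1 / (q : ℝ) ^ 2)
              ≤ 2 * 10 ^ 17 * v ^ 10 * H * (4 * (1 / κ ^ 2)) :=
                mul_le_mul_of_nonneg_left h2 (by positivity)
            _ = 8 * 10 ^ 17 * v ^ 10 * (1 / κ ^ 2) * H := by ring
  · -- the trivial case
    push Not at hbig
    have h1 : {X : ℝ | X ∈ Set.Icc Y (Y + H) ∧ ¬ ∃ n : ℕ, IsSumOfTwoSquares n ∧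
        (n : ℝ) ∈ Set.Icc (X - η * X ^ (1 / 4 : ℝ)) X} ⊆ Set.Icc Y (Y + H) := fun X hX => hX.1
    calc volume {X : ℝ | X ∈ Set.Icc Y (Y + H) ∧ ¬ ∃ n : ℕ, IsSumOfTwoSquares n ∧
        (n : ℝ) ∈ Set.Icc (X - η * X ^ (1 / 4 : ℝ)) X}
        ≤ volume (Set.Icc Y (Y + H)) := measure_mono h1
      _ = ENNReal.ofReal H := by rw [Real.volume_Icc, add_sub_cancel_left]
      _ ≤ ENNReal.ofReal (8 * 10 ^ 17 * v ^ 10 * (1 / κ ^ 2) * H) := by
          apply ENNReal.ofReal_le_ofReal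
          have h2 : 1 ≤ 8 * 10 ^ 17 * v ^ 10 * (1 / κ ^ 2) := by
            rw [mul_one_div, le_div_iff₀ (by positivity)]
            linarith
          calc H = 1 * H := (one_mul _).symm
            _ ≤ 8 * 10 ^ 17 * v ^ 10 * (1 / κ ^ 2) * H :=
              mul_le_mul_of_nonneg_right h2 hH0.le

end Pool.Agent.Results.MP_5f3550_nt.EveryShortInterval
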