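import Mathlib
import Pool.Prelude.Def_F_c1751164
import Pool.Agent.Run7.h770.Gaps

/-!
# Few large gaps between sums of two squares

For `X^(2/9) ≤ g ≤ X^(1/4)` the number of sums of two squares `n ≤ X` that are followed by a gap of
length at least `g` is at most `C X^(5/3+ε) / g^5`; for `g` of order `X^(1/4)` this is
`X^(5/12+ε)`.
-/

set_option autoImplicit false

open N73befb9b

namespace Pool.Agent.Results.MP_5f3550_nt.FewLargeGaps

theorem result : ∀ ε : ℝ, 0 < ε → ∃ C : ℝ, 0 < C ∧ ∀ X g : ℝ, 1 ≤ X → X ^ (2 / 9 : ℝ) ≤ g →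
    g ≤ X ^ (1 / 4 : ℝ) →
    ({n : ℕ | (n : ℝ) ≤ X ∧ IsSumOfTwoSquares n ∧
      ∀ m : ℕ, IsSumOfTwoSquares m → n < m → (n : ℝ) + g ≤ m}.ncard : ℝ) ≤
      C * X ^ (5 / 3 + ε) / g ^ 5 := by
  intro ε hε
  exact Run7.h770.few_gaps ε hε

end Pool.Agent.Results.MP_5f3550_nt.FewLargeGaps
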